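import Mathlib

/-!
Definitions for problem MP_294a04_nt, exactly as in the problem file.
-/

set_option autoImplicit false

namespace Pool.Agent.MP_294a04_nt

/-- `‖x‖`, the distance from the real number `x` to the nearest integer. -/
noncomputable def distInt (x : ℝ) : ℝ := |x - round x|

/-- `ξ` is badly approximable: `inf_{q ≥ 1} q ‖q ξ‖ > 0`. -/
def BadlyApproximable (ξ : ℝ) : Prop :=
  ∃ c : ℝ, 0 < c ∧ ∀ q : ℕ, 1 ≤ q → c ≤ (q : ℝ) * distInt ((q : ℝ) * ξ)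

/-- `m_Q(ξ, ζ)`, the minimum of `‖q ξ‖ ‖q ζ‖` over the integers `1 ≤ q ≤ Q`. -/
noncomputable def minProd (Q : ℕ) (ξ ζ : ℝ) : ℝ :=
  sInf ((fun q : ℕ => distInt ((q : ℝ) * ξ) * distInt ((q : ℝ) * ζ)) '' Set.Icc 1 Q)

/-- `D(ξ, ζ) = limsup_{Q → ∞} Q m_Q(ξ, ζ)`, as an extended real number. -/
noncomputable def uniformD (ξ ζ : ℝ) : EReal :=
  Filter.limsup (fun Q : ℕ => (((Q : ℝ) * minProd Q ξ ζ : ℝ) : EReal)) Filter.atTop

end Pool.Agent.MP_294a04_nt
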