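import Mathlib

/-!
A potential-function version of the nested interval game: at level `n` the current interval is
`[X n, X n + 2^(-11) * 64^(-n)]` and one has to avoid the balls with centre `χ n m (X n)` and
radius `4^(-(m+11)) * 64^(-n)` for `m < M n`.
-/

set_option autoImplicit false

namespace Pool.Agent.MP_294a04_nt

open Finset

/-- Build a sequence step by step, when the property of step `k` only depends on the entries
with index at most `k`. -/
theorem exists_seq_of_extend {α : Type*} (P : ℕ → (ℕ → α) → Prop)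
    (hloc : ∀ k X Y, (∀ j, j ≤ k → X j = Y j) → P k X → P k Y)
    (h0 : ∃ X, P 0 X)
    (hstep : ∀ k X, P k X → ∃ a, P (k + 1) (Function.update X (k + 1) a)) :
    ∃ X, ∀ k, P k X := by
  classical
  obtain ⟨X0, hX0⟩ := h0
  choose a ha using hstep
  let S : (k : ℕ) → {X : ℕ → α // P k X} := fun k =>
    Nat.rec (motive := fun k => {X : ℕ → α // P k X}) ⟨X0, hX0⟩
      (fun k X => ⟨Function.update X.1 (k + 1) (a k X.1 X.2), ha k X.1 X.2⟩) k
  have hS : ∀ k, (S (k + 1)).1 = Function.update (S k).1 (k + 1) (a k (S k).1 (S k).2) :=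
    fun k => rfl
  refine ⟨fun n => (S n).1 n, fun k => ?_⟩
  have key : ∀ k j, j ≤ k → (S k).1 j = (S j).1 j := by
    intro k
    induction k with
    | zero =>
      intro j hj
      have : j = 0 := by omega
      subst this
      rfl
    | succ k ih =>
      intro j hj
      by_cases hjk : j = k + 1
      · subst hjk; rfl
      · rw [hS, Function.update_of_ne hjk]
        exact ih j (by omega)
  exact hloc k (S k).1 _ (fun j hj => key k j hj) (S k).2

/-- The open ball of centre `c` and radius `r` meets the interval `[x, x + len]`. -/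
def Meets (c r x len : ℝ) : Prop := x - r < c ∧ c < x + len + r

/-- An interval of length at least `2 r` and its translates: at most two of them meet a
ball of radius `r`. -/
theorem card_meets_le (c r x len : ℝ) (hr : 2 * r ≤ len) (hlen : 0 < len) (s : Finset ℕ)
    (h : ∀ i ∈ s, Meets c r (x + i * len) len) : s.card ≤ 2 := by
  classical
  set a : ℝ := (c - x - r) / len - 1 with ha
  have h1 : ∀ i ∈ s, (i : ℤ) ∈ ({⌊a⌋ + 1, ⌊a⌋ + 2} : Finset ℤ) := by
    intro i hi
    obtain ⟨hl, hu⟩ := h i hi
    have e1 : a < i := by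
      rw [ha, sub_lt_iff_lt_add, div_lt_iff₀ hlen]
      nlinarith
    have e2 : (i : ℝ) < a + 2 := by
      have : (i : ℝ) < (c - x - r) / len + 1 := by
        have : (i : ℝ) - 1 < (c - x - r) / len := by
          rw [lt_div_iff₀ hlen]
          nlinarith
        linarith
      rw [ha]; linarith
    have f1 : ⌊a⌋ < (i : ℤ) := by
      rw [Int.floor_lt]; exact_mod_cast e1
    have f2 : (i : ℤ) < ⌊a⌋ + 3 := by
      have : ((i : ℤ) : ℝ) < (⌊a⌋ : ℝ) + 3 := by
        have := Int.lt_floor_add_one a
        push_cast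
        linarith
      exact_mod_cast this
    simp only [Finset.mem_insert, Finset.mem_singleton]
    omega
  have h2 : (s.map ⟨fun i : ℕ => (i : ℤ), fun a b h => by simpa using h⟩) ⊆
      ({⌊a⌋ + 1, ⌊a⌋ + 2} : Finset ℤ) := by
    intro z hz
    rw [Finset.mem_map] at hz
    obtain ⟨i, hi, rfl⟩ := hz
    exact h1 i hi
  have h3 := Finset.card_le_card h2
  rw [Finset.card_map] at h3
  exact h3.trans Finset.card_le_two

/-- length of the level `k` interval -/
noncomputable def len (k : ℕ) : ℝ := 1 / 2 ^ 11 / 64 ^ k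

/-- radius of the `m`-th ball of level `n` -/
noncomputable def rad (n m : ℕ) : ℝ := 1 / 4 ^ (m + 11) / 64 ^ n

/-- weight -/
noncomputable def wt (m : ℕ) : ℝ := 1 / 2 ^ (m + 2)

theorem len_pos (k : ℕ) : 0 < len k := by unfold len; positivity
theorem rad_pos (n m : ℕ) : 0 < rad n m := by unfold rad; positivity
theorem wt_pos (m : ℕ) : 0 < wt m := by unfold wt; positivity

theorem len_succ (k : ℕ) : 64 * len (k + 1) = len k := by
  unfold len; rw [pow_succ (64 : ℝ) k]; field_simp

theorem sum_wt_le (M : ℕ) : ∑ m ∈ range M, wt m ≤ 1 / 2 := by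
  have : ∀ M : ℕ, ∑ m ∈ range M, wt m = 1 / 2 - 1 / 2 ^ (M + 1) := by
    intro M
    induction M with
    | zero => norm_num
    | succ M ih =>
      rw [Finset.sum_range_succ, ih]
      unfold wt
      field_simp
      ring
  rw [this]
  have : (0 : ℝ) < 1 / 2 ^ (M + 1) := by positivity
  linarith

theorem rad_small {n m k : ℕ} (hnk : n ≤ k) (h : wt m * 8 ^ (k - n) ≤ 1) :
    2 * rad n m ≤ len (k + 1) := by
  obtain ⟨j, rfl⟩ := Nat.exists_eq_add_of_le hnk
  rw [Nat.add_sub_cancel_left] at h
  have hw := wt_pos m
  have h2 : (wt m * 8 ^ j) ^ 2 ≤ 1 := by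
    have : 0 ≤ wt m * 8 ^ j := by positivity
    nlinarith
  have e : 2 * rad n m = (wt m * 8 ^ j) ^ 2 * len (n + j + 1) := by
    unfold rad wt len
    rw [mul_pow, ← pow_mul, mul_comm j 2, pow_mul, pow_add (64 : ℝ) (n + j) 1, pow_add (64 : ℝ) n j,
      div_pow, ← pow_mul, mul_comm (m + 2) 2, pow_mul, pow_add ((2 : ℝ) ^ 2) m 2,
      pow_add (4 : ℝ) m 11]
    norm_num
    field_simp
    norm_num
  rw [e]
  have := len_pos (n + j + 1)
  nlinarith

section game

variable (χ : ℕ → ℕ → ℝ → ℝ) (M : ℕ → ℕ)

open Classical in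
/-- the potential at level `k` -/
noncomputable def pot (k : ℕ) (X : ℕ → ℝ) : ℝ :=
  ∑ n ∈ range k, ∑ m ∈ range (M n),
    if Meets (χ n m (X n)) (rad n m) (X k) (len k) then wt m * 8 ^ (k - n) else 0

theorem pot_step (k : ℕ) (X : ℕ → ℝ) (h : pot χ M k X ≤ 1 / 2) :
    ∃ i : ℕ, i < 64 ∧
      pot χ M (k + 1) (Function.update X (k + 1) (X k + i * len (k + 1))) ≤ 1 / 2 := by
  classical
  -- total of the old and the new balls
  set T : ℝ := ∑ n ∈ range (k + 1), ∑ m ∈ range (M n),
    if Meets (χ n m (X n)) (rad n m) (X k) (len k) then wt m * 8 ^ (k - n) else 0 with hT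
  have hT1 : T ≤ 1 := by
    rw [hT, Finset.sum_range_succ]
    have e1 : ∑ m ∈ range (M k),
        (if Meets (χ k m (X k)) (rad k m) (X k) (len k) then wt m * 8 ^ (k - k) else 0)
        ≤ ∑ m ∈ range (M k), wt m := by
      apply Finset.sum_le_sum
      intro m _
      have := wt_pos m
      split_ifs
      · simp
      · exact this.le
    have e2 := sum_wt_le (M k)
    have e3 : ∑ n ∈ range k, ∑ m ∈ range (M n),
      (if Meets (χ n m (X n)) (rad n m) (X k) (len k) then wt m * 8 ^ (k - n) else 0)
        = pot χ M k X := rfl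
    rw [e3]
    linarith
  have hterm : ∀ n ∈ range (k + 1), ∀ m ∈ range (M n),
      Meets (χ n m (X n)) (rad n m) (X k) (len k) → wt m * 8 ^ (k - n) ≤ 1 := by
    intro n hn m hm hme
    refine le_trans ?_ hT1
    have nonneg : ∀ n m, 0 ≤
        (if Meets (χ n m (X n)) (rad n m) (X k) (len k) then wt m * 8 ^ (k - n) else 0) := by
      intro n m
      have := wt_pos m
      split_ifs
      · positivity
      · exact le_refl 0
    have s1 : wt m * 8 ^ (k - n) ≤ ∑ m ∈ range (M n),
        (if Meets (χ n m (X n)) (rad n m) (X k) (len k) then wt m * 8 ^ (k - n) else 0) := by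
      have := Finset.single_le_sum (f := fun m =>
        (if Meets (χ n m (X n)) (rad n m) (X k) (len k) then wt m * 8 ^ (k - n) else 0))
        (fun m _ => nonneg n m) hm
      simpa [hme] using this
    have s2 := Finset.single_le_sum (f := fun n => ∑ m ∈ range (M n),
        (if Meets (χ n m (X n)) (rad n m) (X k) (len k) then wt m * 8 ^ (k - n) else 0))
        (fun n _ => Finset.sum_nonneg (fun m _ => nonneg n m)) hn
    exact s1.trans s2
  have hsum : ∑ i ∈ range 64,
      pot χ M (k + 1) (Function.update X (k + 1) (X k + i * len (k + 1))) ≤ 16 * T := by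
    unfold pot
    rw [Finset.sum_comm, hT, Finset.mul_sum]
    apply Finset.sum_le_sum
    intro n hn
    rw [Finset.sum_comm, Finset.mul_sum]
    apply Finset.sum_le_sum
    intro m hm
    have hnk : n ≤ k := by
      have := Finset.mem_range.1 hn
      omega
    have hne : n ≠ k + 1 := by omega
    have hw := wt_pos m
    simp only [Function.update_of_ne hne, Function.update_self]
    rw [← Finset.sum_filter, Finset.sum_const, nsmul_eq_mul]
    by_cases hme : Meets (χ n m (X n)) (rad n m) (X k) (len k)
    · rw [if_pos hme]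
      have hc := card_meets_le (χ n m (X n)) (rad n m) (X k) (len (k + 1))
        (rad_small hnk (hterm n hn m hm hme)) (len_pos _)
        ((range 64).filter (fun i : ℕ =>
          Meets (χ n m (X n)) (rad n m) (X k + i * len (k + 1)) (len (k + 1))))
        (fun i hi => (Finset.mem_filter.1 hi).2)
      have hc' : ((((range 64).filter (fun i : ℕ =>
          Meets (χ n m (X n)) (rad n m) (X k + i * len (k + 1)) (len (k + 1)))).card : ℕ) : ℝ)
          ≤ 2 := by exact_mod_cast hc
      have e8 : (8 : ℝ) ^ (k + 1 - n) = 8 * 8 ^ (k - n) := by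
        rw [Nat.sub_add_comm hnk, pow_succ]; ring
      rw [e8]
      have hpos : 0 < wt m * (8 * 8 ^ (k - n)) := by positivity
      nlinarith
    · have hemp : ((range 64).filter (fun i : ℕ =>
          Meets (χ n m (X n)) (rad n m) (X k + i * len (k + 1)) (len (k + 1)))) = ∅ := by
        rw [Finset.filter_eq_empty_iff]
        intro i hi hmi
        apply hme
        obtain ⟨h1, h2⟩ := hmi
        have hl := len_pos (k + 1)
        have hl' := len_succ k
        have hi' : (i : ℝ) + 1 ≤ 64 := by
          have := Finset.mem_range.1 hi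
          exact_mod_cast this
        have hi0 : (0 : ℝ) ≤ i := Nat.cast_nonneg i
        constructor
        · nlinarith
        · nlinarith
      rw [hemp, if_neg hme]
      simp
  have h64 : ∑ i ∈ range 64,
      pot χ M (k + 1) (Function.update X (k + 1) (X k + i * len (k + 1)))
      ≤ ∑ _i ∈ range 64, (1 / 2 : ℝ) := by
    rw [Finset.sum_const, Finset.card_range, nsmul_eq_mul]
    push_cast
    linarith
  obtain ⟨i, hi, hle⟩ := Finset.exists_le_of_sum_le (by simp) h64
  exact ⟨i, Finset.mem_range.1 hi, hle⟩

theorem game (x0 : ℝ) : ∃ (X : ℕ → ℝ) (ξ : ℝ), X 0 = x0 ∧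
    (∀ k, X k ≤ ξ ∧ ξ ≤ X k + len k) ∧
    ∀ n m, m < M n → rad n m ≤ |ξ - χ n m (X n)| := by
  classical
  obtain ⟨X, hX⟩ := exists_seq_of_extend (α := ℝ)
    (fun k X => X 0 = x0 ∧ pot χ M k X ≤ 1 / 2 ∧
      (∀ j, j < k → X j ≤ X (j + 1) ∧ X (j + 1) + len (j + 1) ≤ X j + len j))
    (by
      intro k X Y hXY ⟨h0, h1, h2⟩
      refine ⟨by rw [← hXY 0 (Nat.zero_le _)]; exact h0, ?_, ?_⟩
      · have : pot χ M k Y = pot χ M k X := by
          unfold pot
          apply Finset.sum_congr rfl
          intro n hn
          have hn' := Finset.mem_range.1 hn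
          apply Finset.sum_congr rfl
          intro m _
          rw [hXY n (by omega), hXY k le_rfl]
        rw [this]; exact h1
      · intro j hj
        rw [← hXY j (by omega), ← hXY (j + 1) (by omega)]
        exact h2 j hj)
    ⟨fun _ => x0, rfl, by simp [pot], by intro j hj; omega⟩
    (by
      intro k X ⟨h0, h1, h2⟩
      obtain ⟨i, hi, hp⟩ := pot_step χ M k X h1
      refine ⟨X k + i * len (k + 1), ?_, hp, ?_⟩
      · rw [Function.update_of_ne (by omega)]; exact h0
      · intro j hj
        by_cases hjk : j = k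
        · subst hjk
          rw [Function.update_self, Function.update_of_ne (by omega)]
          have hl := len_pos (j + 1)
          have hl' := len_succ j
          have hi' : (i : ℝ) + 1 ≤ 64 := by exact_mod_cast hi
          have hi0 : (0 : ℝ) ≤ i := Nat.cast_nonneg i
          constructor
          · nlinarith
          · nlinarith
        · rw [Function.update_of_ne (by omega), Function.update_of_ne (by omega)]
          exact h2 j (by omega))
  have hmono : Monotone X := monotone_nat_of_le_succ (fun k => ((hX (k + 1)).2.2 k (by omega)).1)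
  have hanti : Antitone (fun k => X k + len k) :=
    antitone_nat_of_succ_le (fun k => ((hX (k + 1)).2.2 k (by omega)).2)
  have hmem := Monotone.ciSup_mem_iInter_Icc_of_antitone hmono hanti
    (fun k => by have := len_pos k; simp only []; linarith)
  refine ⟨X, ⨆ k, X k, (hX 0).1, fun k => ?_, ?_⟩
  · have := Set.mem_iInter.1 hmem k
    exact ⟨this.1, this.2⟩
  · intro n m hm
    by_contra hcon
    push Not at hcon
    set ξ := ⨆ k, X k with hξ
    have hpot := (hX (n + (m + 2))).2.1
    have hmeets : Meets (χ n m (X n)) (rad n m) (X (n + (m + 2))) (len (n + (m + 2))) := by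
      have := Set.mem_iInter.1 hmem (n + (m + 2))
      have h1 := this.1
      have h2 := this.2
      rw [abs_lt] at hcon
      constructor
      · linarith
      · linarith
    have nonneg : ∀ n' m', 0 ≤
        (if Meets (χ n' m' (X n')) (rad n' m') (X (n + (m + 2))) (len (n + (m + 2)))
          then wt m' * 8 ^ (n + (m + 2) - n') else 0) := by
      intro n' m'
      have := wt_pos m'
      split_ifs
      · positivity
      · exact le_refl 0
    have s1 : wt m * 8 ^ (n + (m + 2) - n) ≤ ∑ m' ∈ range (M n),
        (if Meets (χ n m' (X n)) (rad n m') (X (n + (m + 2))) (len (n + (m + 2)))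
          then wt m' * 8 ^ (n + (m + 2) - n) else 0) := by
      have := Finset.single_le_sum (f := fun m' =>
        (if Meets (χ n m' (X n)) (rad n m') (X (n + (m + 2))) (len (n + (m + 2)))
          then wt m' * 8 ^ (n + (m + 2) - n) else 0))
        (fun m' _ => nonneg n m') (Finset.mem_range.2 hm)
      simpa [hmeets] using this
    have s2 := Finset.single_le_sum (f := fun n' => ∑ m' ∈ range (M n'),
        (if Meets (χ n' m' (X n')) (rad n' m') (X (n + (m + 2))) (len (n + (m + 2)))
          then wt m' * 8 ^ (n + (m + 2) - n') else 0))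
        (fun n' _ => Finset.sum_nonneg (fun m' _ => nonneg n' m'))
        (Finset.mem_range.2 (show n < n + (m + 2) by omega))
    have s3 : wt m * 8 ^ (n + (m + 2) - n) ≤ 1 / 2 := (s1.trans s2).trans hpot
    rw [Nat.add_sub_cancel_left] at s3
    unfold wt at s3
    have e8 : (8 : ℝ) ^ (m + 2) = 4 ^ (m + 2) * 2 ^ (m + 2) := by
      rw [← mul_pow]; norm_num
    rw [e8] at s3
    have hp : (0 : ℝ) < 2 ^ (m + 2) := by positivity
    have e9 : 1 / (2 : ℝ) ^ (m + 2) * (4 ^ (m + 2) * 2 ^ (m + 2)) = 4 ^ (m + 2) := by
      field_simp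
    rw [e9] at s3
    have : (1 : ℝ) ≤ 4 ^ (m + 2) := one_le_pow₀ (by norm_num)
    linarith

end game

end Pool.Agent.MP_294a04_nt
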