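import Mathlib
import Pool.Agent.Lib.MP_294a04_nt.Defs
import Pool.Agent.Lib.MP_294a04_nt.Game

set_option autoImplicit false
set_option maxHeartbeats 1000000

namespace Pool.Agent.MP_294a04_nt

open Finset

theorem distInt_le (x : ℝ) (z : ℤ) : distInt x ≤ |x - z| := by
  unfold distInt
  exact round_le x z

theorem distInt_nonneg (x : ℝ) : 0 ≤ distInt x := abs_nonneg _

theorem distInt_le_half (x : ℝ) : distInt x ≤ 1 / 2 := by
  unfold distInt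
  exact abs_sub_round x

/-- Thue's lemma. -/
theorem thue (q : ℕ) (hq : 1 ≤ q) (p p2 : ℤ) (α β : ℝ) (hα : 0 ≤ α) (hβ : 0 ≤ β)
    (h : (q : ℝ) ≤ α * β) :
    ∃ A B : ℤ, (A ≠ 0 ∨ B ≠ 0) ∧ |(A : ℝ)| ≤ α ∧ |(B : ℝ)| ≤ β ∧
      (q : ℤ) ∣ A * p + B * p2 := by
  classical
  have hcard : (Finset.Ico (0 : ℤ) q).card < (range (⌊α⌋₊ + 1) ×ˢ range (⌊β⌋₊ + 1)).card := by
    rw [Finset.card_product, Finset.card_range, Finset.card_range, Int.card_Ico]
    have h1 : (q : ℝ) < ((⌊α⌋₊ + 1) * (⌊β⌋₊ + 1) : ℕ) := by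
      have e1 := Nat.lt_floor_add_one α
      have e2 := Nat.lt_floor_add_one β
      push_cast
      have e3 : (0 : ℝ) ≤ (⌊α⌋₊ : ℝ) := Nat.cast_nonneg _
      have e4 : (0 : ℝ) ≤ (⌊β⌋₊ : ℝ) := Nat.cast_nonneg _
      nlinarith
    have h2 : q < (⌊α⌋₊ + 1) * (⌊β⌋₊ + 1) := by exact_mod_cast h1
    simpa using h2
  have hmaps : ∀ x ∈ (range (⌊α⌋₊ + 1) ×ˢ range (⌊β⌋₊ + 1)),
      (fun x : ℕ × ℕ => ((x.1 : ℤ) * p + (x.2 : ℤ) * p2) % (q : ℤ)) x ∈ Finset.Ico (0 : ℤ) q := by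
    intro x _
    have hq' : (0 : ℤ) < q := by exact_mod_cast hq
    simp only [Finset.mem_Ico]
    exact ⟨Int.emod_nonneg _ hq'.ne', Int.emod_lt_of_pos _ hq'⟩
  obtain ⟨x, hx, y, hy, hxy, hf⟩ :=
    Finset.exists_ne_map_eq_of_card_lt_of_maps_to hcard hmaps
  simp only [Finset.mem_product, Finset.mem_range] at hx hy
  have fα := Nat.floor_le hα
  have fβ := Nat.floor_le hβ
  have b1 : ((x.1 : ℕ) : ℝ) ≤ ⌊α⌋₊ := by exact_mod_cast Nat.lt_succ_iff.1 hx.1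
  have b2 : ((x.2 : ℕ) : ℝ) ≤ ⌊β⌋₊ := by exact_mod_cast Nat.lt_succ_iff.1 hx.2
  have b3 : ((y.1 : ℕ) : ℝ) ≤ ⌊α⌋₊ := by exact_mod_cast Nat.lt_succ_iff.1 hy.1
  have b4 : ((y.2 : ℕ) : ℝ) ≤ ⌊β⌋₊ := by exact_mod_cast Nat.lt_succ_iff.1 hy.2
  have n1 : (0 : ℝ) ≤ (x.1 : ℕ) := Nat.cast_nonneg _
  have n2 : (0 : ℝ) ≤ (x.2 : ℕ) := Nat.cast_nonneg _
  have n3 : (0 : ℝ) ≤ (y.1 : ℕ) := Nat.cast_nonneg _
  have n4 : (0 : ℝ) ≤ (y.2 : ℕ) := Nat.cast_nonneg _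
  refine ⟨(x.1 : ℤ) - y.1, (x.2 : ℤ) - y.2, ?_, ?_, ?_, ?_⟩
  · by_contra hcon
    push Not at hcon
    apply hxy
    obtain ⟨c1, c2⟩ := hcon
    ext
    · omega
    · omega
  · push_cast
    rw [abs_le]; constructor <;> linarith
  · push_cast
    rw [abs_le]; constructor <;> linarith
  · have h3 : ((x.1 : ℤ) * p + (x.2 : ℤ) * p2) % (q : ℤ) =
        ((y.1 : ℤ) * p + (y.2 : ℤ) * p2) % (q : ℤ) := hf
    have h5 : (q : ℤ) ∣ ((x.1 : ℤ) * p + (x.2 : ℤ) * p2) - ((y.1 : ℤ) * p + (y.2 : ℤ) * p2) :=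
      Int.ModEq.dvd (n := (q : ℤ)) h3.symm
    have e : ((x.1 : ℤ) - y.1) * p + ((x.2 : ℤ) - y.2) * p2 =
      ((x.1 : ℤ) * p + (x.2 : ℤ) * p2) - ((y.1 : ℤ) * p + (y.2 : ℤ) * p2) := by ring
    rw [e]; exact h5

/-- The line attached to the rational point `(p / q, p₂ / q)`. -/
theorem attach (ζ κ e : ℝ) (hκ0 : 0 < κ)
    (hκ : ∀ q : ℕ, 1 ≤ q → κ ≤ (q : ℝ) * distInt ((q : ℝ) * ζ))
    (he0 : 0 < e) (heκ : e < κ) (m q : ℕ) (hq : 1 ≤ q) (p : ℤ) :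
    ∃ A B : ℤ, A ≠ 0 ∧
      |(A : ℝ)| * (e / 4 ^ m) ≤ distInt ((q : ℝ) * ζ) * q ∧
      |(B : ℝ)| * distInt ((q : ℝ) * ζ) ≤ e / 4 ^ m ∧
      (q : ℤ) ∣ A * p + B * round ((q : ℝ) * ζ) := by
  set y := distInt ((q : ℝ) * ζ) with hy
  have hqR : (1 : ℝ) ≤ q := by exact_mod_cast hq
  have hyq := hκ q hq
  rw [← hy] at hyq
  have hy0 : 0 < y := by
    by_contra hcon
    push Not at hcon
    nlinarith
  set τ : ℝ := e / 4 ^ m with hτ
  have hτ0 : 0 < τ := by positivity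
  have hτe : τ ≤ e := by
    rw [hτ]
    apply div_le_self he0.le
    exact one_le_pow₀ (by norm_num)
  obtain ⟨A, B, hAB, hA, hB, hdvd⟩ := thue q hq p (round ((q : ℝ) * ζ)) (y * q / τ) (τ / y)
    (by positivity) (by positivity) (by
      have : y * q / τ * (τ / y) = q := by field_simp
      rw [this])
  have hA' : |(A : ℝ)| * τ ≤ y * q := (le_div_iff₀ hτ0).1 hA
  have hB' : |(B : ℝ)| * y ≤ τ := (le_div_iff₀ hy0).1 hB
  refine ⟨A, B, ?_, hA', hB', hdvd⟩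
  intro hA0
  subst hA0
  have hB0 : B ≠ 0 := by simpa using hAB
  obtain ⟨C, hC⟩ := hdvd
  have hCR : (B : ℝ) * (round ((q : ℝ) * ζ) : ℤ) = q * C := by
    have := congrArg (fun z : ℤ => (z : ℝ)) hC
    push_cast at this
    linarith
  -- `κ ≤ |B| ‖B ζ‖ ≤ |B|² y / q`
  have hBn : 1 ≤ B.natAbs := Int.natAbs_pos.2 hB0
  have hκB := hκ B.natAbs hBn
  have hcast : ((B.natAbs : ℕ) : ℝ) = |(B : ℝ)| := by
    rw [Nat.cast_natAbs]; push_cast; rfl
  rw [hcast] at hκB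
  have hd : distInt (|(B : ℝ)| * ζ) ≤ |(B : ℝ)| * y / q := by
    have e1 : |(B : ℝ) * ζ - C| = |(B : ℝ)| * y / q := by
      have : (B : ℝ) * ζ - C = B * ((q : ℝ) * ζ - round ((q : ℝ) * ζ)) / q := by
        have hq0 : (q : ℝ) ≠ 0 := by positivity
        rw [eq_div_iff hq0]
        linear_combination hCR
      rw [this, abs_div, abs_mul, abs_of_pos (show (0 : ℝ) < q by linarith)]
      rfl
    rcases le_or_gt 0 (B : ℝ) with hpos | hneg
    · rw [← e1, abs_of_nonneg hpos]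
      exact distInt_le _ C
    · rw [← e1, abs_of_neg hneg]
      have := distInt_le (-(B : ℝ) * ζ) (-C)
      have e2 : |-(B : ℝ) * ζ - ((-C : ℤ) : ℝ)| = |(B : ℝ) * ζ - C| := by
        rw [← abs_neg]; congr 1; push_cast; ring
      rwa [e2] at this
  have hBabs : 0 ≤ |(B : ℝ)| := abs_nonneg _
  have h1 : κ ≤ |(B : ℝ)| * (|(B : ℝ)| * y / q) :=
    hκB.trans (mul_le_mul_of_nonneg_left hd hBabs)
  have h2 : κ * (q * y) ≤ (|(B : ℝ)| * y) ^ 2 := by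
    have hq0 : (0 : ℝ) < q := by linarith
    have : κ * q ≤ |(B : ℝ)| * (|(B : ℝ)| * y) := by
      have := mul_le_mul_of_nonneg_right h1 hq0.le
      have e3 : |(B : ℝ)| * (|(B : ℝ)| * y / q) * q = |(B : ℝ)| * (|(B : ℝ)| * y) := by
        field_simp
      linarith
    nlinarith
  have h3 : (|(B : ℝ)| * y) ^ 2 ≤ e ^ 2 := by
    apply pow_le_pow_left₀ (by positivity)
    linarith
  have h4 : κ * κ ≤ κ * (q * y) := mul_le_mul_of_nonneg_left hyq hκ0.le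
  nlinarith

/-- All the dangerous zones of one class which meet the interval are in one small ball. -/
theorem cluster (ζ e : ℝ) (he0 : 0 < e) (he1 : e ≤ 1 / 2 ^ 29)
    (A B : ℕ → ℕ → ℤ → ℤ)
    (hA0 : ∀ m q : ℕ, 1 ≤ q → ∀ p : ℤ, A m q p ≠ 0)
    (hA : ∀ m q : ℕ, 1 ≤ q → ∀ p : ℤ,
      |(A m q p : ℝ)| * (e / 4 ^ m) ≤ distInt ((q : ℝ) * ζ) * q)
    (hB : ∀ m q : ℕ, 1 ≤ q → ∀ p : ℤ,
      |(B m q p : ℝ)| * distInt ((q : ℝ) * ζ) ≤ e / 4 ^ m)
    (hdvd : ∀ m q : ℕ, 1 ≤ q → ∀ p : ℤ,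
      (q : ℤ) ∣ A m q p * p + B m q p * round ((q : ℝ) * ζ))
    (Q n m : ℕ) (x : ℝ) :
    ∃ x0 : ℝ, ∀ (ξ : ℝ) (q : ℕ) (p : ℤ), x ≤ ξ → ξ ≤ x + len n → 1 ≤ q →
      16 ^ m * q ≤ Q → Q < 16 ^ (m + 1) * q →
      64 ^ n ≤ q * (A m q p).natAbs → q * (A m q p).natAbs < 64 ^ (n + 1) →
      |(q : ℝ) * ξ - p| * distInt ((q : ℝ) * ζ) < e ^ 2 / Q →
      |ξ - x0| < rad n (m + 1) := by
  classical
  -- the predicate on points with a witness
  set S : ℝ → ℕ → ℤ → Prop := fun ξ q p => x ≤ ξ ∧ ξ ≤ x + len n ∧ 1 ≤ q ∧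
      16 ^ m * q ≤ Q ∧ Q < 16 ^ (m + 1) * q ∧
      64 ^ n ≤ q * (A m q p).natAbs ∧ q * (A m q p).natAbs < 64 ^ (n + 1) ∧
      |(q : ℝ) * ξ - p| * distInt ((q : ℝ) * ζ) < e ^ 2 / Q with hS
  suffices hmain : ∃ x0 : ℝ, ∀ ξ q p, S ξ q p → |ξ - x0| < rad n (m + 1) by
    obtain ⟨x0, hx0⟩ := hmain
    exact ⟨x0, fun ξ q p h1 h2 h3 h4 h5 h6 h7 h8 => hx0 ξ q p ⟨h1, h2, h3, h4, h5, h6, h7, h8⟩⟩
  by_cases hne : ∃ ξ q p, S ξ q p
  swap
  · push Not at hne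
    exact ⟨0, fun ξ q p h => absurd h (hne ξ q p)⟩
  -- choose the point with the largest `y`
  set F : Finset ℕ := (range (Q + 1)).filter (fun q => ∃ ξ p, S ξ q p) with hF
  have hFmem : ∀ ξ q p, S ξ q p → q ∈ F := by
    intro ξ q p h
    rw [hF, Finset.mem_filter, Finset.mem_range]
    refine ⟨?_, ξ, p, h⟩
    have h1 := h.2.2.2.1
    have h2 : 1 ≤ 16 ^ m := Nat.one_le_pow _ _ (by norm_num)
    nlinarith
  have hFne : F.Nonempty := by
    obtain ⟨ξ, q, p, h⟩ := hne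
    exact ⟨q, hFmem ξ q p h⟩
  obtain ⟨qs, hqsF, hmax⟩ := Finset.exists_max_image F (fun q => distInt ((q : ℝ) * ζ)) hFne
  obtain ⟨_, ξs, ps, hs⟩ := Finset.mem_filter.1 hqsF
  obtain ⟨s1, s2, s3, s4, s5, s6, s7, s8⟩ := hs
  set As := A m qs ps with hAs
  set Bs := B m qs ps with hBs
  set ys := distInt ((qs : ℝ) * ζ) with hys
  obtain ⟨Cs, hCs⟩ := hdvd m qs s3 ps
  rw [← hAs, ← hBs] at hCs
  have hCsR : (As : ℝ) * ps + Bs * (round ((qs : ℝ) * ζ) : ℤ) = qs * Cs := by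
    exact_mod_cast hCs
  set τ : ℝ := 1 / 4 ^ m with hτ
  have hτ0 : 0 < τ := by positivity
  have hτ1 : τ ≤ 1 := by
    rw [hτ]
    rw [div_le_one (by positivity)]
    exact one_le_pow₀ (by norm_num)
  have hτ2 : τ ^ 2 = 1 / 16 ^ m := by
    rw [hτ, div_pow, ← pow_mul, mul_comm m 2, pow_mul]; norm_num
  have heτ : e / 4 ^ m = e * τ := by rw [hτ]; ring
  -- general estimate for one point
  have hpt : ∀ ξ q p, S ξ q p → 0 < (q : ℝ) * |(A m q p : ℝ)| ∧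
      |ξ - p / q| * ((q : ℝ) * |(A m q p : ℝ)|) < e * τ := by
    intro ξ q p ⟨h1, h2, h3, h4, h5, h6, h7, h8⟩
    have hq0 : (0 : ℝ) < q := by exact_mod_cast h3
    have hApos : 0 < |(A m q p : ℝ)| := abs_pos.2 (by exact_mod_cast hA0 m q h3 p)
    refine ⟨by positivity, ?_⟩
    have hAq := hA m q h3 p
    rw [heτ] at hAq
    set y := distInt ((q : ℝ) * ζ) with hy
    have hyq : 0 < y * q := lt_of_lt_of_le (by positivity) hAq
    have hQ0 : (0 : ℝ) < Q := by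
      have : 0 < Q := lt_of_lt_of_le (by positivity) h4
      exact_mod_cast this
    have e1 : |(q : ℝ) * ξ - p| = q * |ξ - p / q| := by
      have : (q : ℝ) * ξ - p = q * (ξ - p / q) := by field_simp
      rw [this, abs_mul, abs_of_pos hq0]
    rw [e1] at h8
    have hQq : (q : ℝ) ≤ τ ^ 2 * Q := by
      rw [hτ2]
      have : (16 : ℝ) ^ m * q ≤ Q := by exact_mod_cast h4
      rw [div_mul_eq_mul_div, one_mul, le_div_iff₀ (by positivity)]
      linarith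
    have h9 : (q * |ξ - p / q| * y) * Q < e ^ 2 := by
      rwa [lt_div_iff₀ hQ0] at h8
    set t := |ξ - p / q| with ht
    have ht0 : 0 ≤ t := abs_nonneg _
    -- t * |A| * eτ ≤ t * y q,  t y q * Q < e², q ≤ τ² Q
    have h10 : t * (|(A m q p : ℝ)| * (e * τ)) ≤ t * (y * q) :=
      mul_le_mul_of_nonneg_left hAq ht0
    have h11 : t * (|(A m q p : ℝ)| * (e * τ)) * Q < e ^ 2 := by
      have : t * (y * q) * Q < e ^ 2 := by nlinarith
      have h12 := mul_le_mul_of_nonneg_right h10 hQ0.le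
      linarith
    have h13 : (t * (q * |(A m q p : ℝ)|)) * (e * τ * Q) < (e * τ) * (e * τ * Q) := by
      have e2 : (t * (q * |(A m q p : ℝ)|)) * (e * τ * Q) =
        (t * (|(A m q p : ℝ)| * (e * τ)) * Q) * q := by ring
      rw [e2]
      have e3 : (e * τ) * (e * τ * Q) = e ^ 2 * (τ ^ 2 * Q) := by ring
      rw [e3]
      have h14 : (t * (|(A m q p : ℝ)| * (e * τ)) * Q) * q < e ^ 2 * q :=
        mul_lt_mul_of_pos_right h11 hq0
      have h15 : e ^ 2 * q ≤ e ^ 2 * (τ ^ 2 * Q) :=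
        mul_le_mul_of_nonneg_left hQq (by positivity)
      linarith
    exact lt_of_mul_lt_mul_right h13 (by positivity)
  have hnat : ∀ q p, ((q * (A m q p).natAbs : ℕ) : ℝ) = (q : ℝ) * |(A m q p : ℝ)| := by
    intro q p
    push_cast
    rw [Nat.cast_natAbs]; push_cast; rfl
  have h64pos : (0 : ℝ) < 64 ^ n := by positivity
  have hpt2 : ∀ ξ q p, S ξ q p → |ξ - p / q| < e * τ / 64 ^ n := by
    intro ξ q p h
    obtain ⟨g1, g2⟩ := hpt ξ q p h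
    have g3 : (64 : ℝ) ^ n ≤ (q : ℝ) * |(A m q p : ℝ)| := by
      rw [← hnat]; exact_mod_cast h.2.2.2.2.2.1
    rw [lt_div_iff₀ h64pos]
    have := mul_le_mul_of_nonneg_left g3 (abs_nonneg (ξ - p / q))
    linarith
  have hss : S ξs qs ps := ⟨s1, s2, s3, s4, s5, s6, s7, s8⟩
  have hqs0 : (0 : ℝ) < qs := by exact_mod_cast s3
  have hAs0 : (As : ℝ) ≠ 0 := by exact_mod_cast hA0 m qs s3 ps
  have hAspos : 0 < |(As : ℝ)| := abs_pos.2 hAs0
  have hBsy : |(Bs : ℝ)| * ys ≤ e * τ := by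
    rw [← heτ]; exact hB m qs s3 ps
  have hAsup : (qs : ℝ) * |(As : ℝ)| < 64 ^ (n + 1) := by
    rw [hAs, ← hnat]; exact_mod_cast s7
  have hAslo : (64 : ℝ) ^ n ≤ (qs : ℝ) * |(As : ℝ)| := by
    rw [hAs, ← hnat]; exact_mod_cast s6
  have hlen : len n = 1 / 2 ^ 11 / 64 ^ n := rfl
  have hBs0 : 0 ≤ |(Bs : ℝ)| := abs_nonneg _
  have heτe : e * τ ≤ e := by nlinarith
  refine ⟨-(Bs * ζ - Cs) / As, fun ξ q p hh => ?_⟩
  obtain ⟨h1, h2, h3, h4, h5, h6, h7, h8⟩ := hh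
  have hh : S ξ q p := ⟨h1, h2, h3, h4, h5, h6, h7, h8⟩
  have hq0 : (0 : ℝ) < q := by exact_mod_cast h3
  set y := distInt ((q : ℝ) * ζ) with hy
  have hy0 : 0 ≤ y := distInt_nonneg _
  have hyle : y ≤ ys := hmax q (hFmem ξ q p hh)
  have hq16 : (q : ℝ) < 16 * qs := by
    have a1 : 16 ^ m * q < 16 ^ m * (16 * qs) := by
      calc 16 ^ m * q ≤ Q := h4
        _ < 16 ^ (m + 1) * qs := s5
        _ = 16 ^ m * (16 * qs) := by ring
    have a2 : q < 16 * qs := Nat.lt_of_mul_lt_mul_left a1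
    exact_mod_cast a2
  have hqs16 : (qs : ℝ) < 16 * q := by
    have a1 : 16 ^ m * qs < 16 ^ m * (16 * q) := by
      calc 16 ^ m * qs ≤ Q := s4
        _ < 16 ^ (m + 1) * q := h5
        _ = 16 ^ m * (16 * q) := by ring
    have a2 : qs < 16 * q := Nat.lt_of_mul_lt_mul_left a1
    exact_mod_cast a2
  -- distance between the two rational points
  have hdist : |(p : ℝ) / q - ps / qs| ≤ len n + 2 * (e * τ / 64 ^ n) := by
    have d1 := hpt2 ξ q p hh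
    have d2 := hpt2 ξs qs ps hss
    have d3 : |ξ - ξs| ≤ len n := by
      rw [abs_le]; constructor <;> linarith
    have d4 : (p : ℝ) / q - ps / qs = -(ξ - p / q) + (ξ - ξs) + (ξs - ps / qs) := by ring
    rw [d4]
    have d5 := abs_add_three (-(ξ - (p : ℝ) / q)) (ξ - ξs) (ξs - (ps : ℝ) / qs)
    rw [abs_neg] at d5
    linarith
  -- second coordinates
  have hy2 : |(round ((q : ℝ) * ζ) : ℝ) / q - ζ| = y / q := by
    have : (round ((q : ℝ) * ζ) : ℝ) / q - ζ = -(((q : ℝ) * ζ) - round ((q : ℝ) * ζ)) / q := by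
      rw [eq_div_iff hq0.ne', sub_mul, div_mul_cancel₀ _ hq0.ne']
      ring
    rw [this, abs_div, abs_neg, abs_of_pos hq0]
    rfl
  have hys2 : |(round ((qs : ℝ) * ζ) : ℝ) / qs - ζ| = ys / qs := by
    have : (round ((qs : ℝ) * ζ) : ℝ) / qs - ζ =
        -(((qs : ℝ) * ζ) - round ((qs : ℝ) * ζ)) / qs := by
      rw [eq_div_iff hqs0.ne', sub_mul, div_mul_cancel₀ _ hqs0.ne']
      ring
    rw [this, abs_div, abs_neg, abs_of_pos hqs0]
    rfl
  -- the integer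
  have hint : As * p + Bs * round ((q : ℝ) * ζ) - Cs * q = 0 := by
    have hN : ((As * p + Bs * round ((q : ℝ) * ζ) - Cs * q : ℤ) : ℝ) =
        q * (As * ((p : ℝ) / q - ps / qs) +
          Bs * (((round ((q : ℝ) * ζ) : ℝ) / q - ζ) - ((round ((qs : ℝ) * ζ) : ℝ) / qs - ζ))) := by
      push_cast
      generalize (round ((q : ℝ) * ζ) : ℝ) = r
      generalize (round ((qs : ℝ) * ζ) : ℝ) = rs at hCsR ⊢
      have e5 : (Cs : ℝ) = (As * ps + Bs * rs) / qs := by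
        rw [hCsR]; field_simp
      rw [e5]
      field_simp
      ring
    have hNlt : |((As * p + Bs * round ((q : ℝ) * ζ) - Cs * q : ℤ) : ℝ)| < 1 := by
      rw [hN, abs_mul, abs_of_pos hq0]
      have f1 : |(As : ℝ) * ((p : ℝ) / q - ps / qs) +
          Bs * (((round ((q : ℝ) * ζ) : ℝ) / q - ζ) - ((round ((qs : ℝ) * ζ) : ℝ) / qs - ζ))|
          ≤ |(As : ℝ)| * (len n + 2 * (e * τ / 64 ^ n)) + |(Bs : ℝ)| * (y / q + ys / qs) := by
        refine (abs_add_le _ _).trans ?_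
        rw [abs_mul, abs_mul]
        apply add_le_add
        · exact mul_le_mul_of_nonneg_left hdist hAspos.le
        · apply mul_le_mul_of_nonneg_left _ hBs0
          refine (abs_sub _ _).trans ?_
          rw [hy2, hys2]
      have f2 : (q : ℝ) * (|(As : ℝ)| * (len n + 2 * (e * τ / 64 ^ n))) ≤
          16 * 64 * (1 / 2 ^ 11 + 2 * e) := by
        have g1 : (q : ℝ) * |(As : ℝ)| ≤ 16 * 64 ^ (n + 1) := by
          have g0 := mul_le_mul_of_nonneg_right hq16.le hAspos.le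
          linarith
        have g2 : 0 ≤ len n + 2 * (e * τ / 64 ^ n) := by
          have := len_pos n
          positivity
        have g3 : len n + 2 * (e * τ / 64 ^ n) ≤ (1 / 2 ^ 11 + 2 * e) / 64 ^ n := by
          rw [hlen, add_div]
          have : 2 * (e * τ / 64 ^ n) ≤ 2 * e / 64 ^ n := by
            rw [← mul_div_assoc]
            apply div_le_div_of_nonneg_right _ h64pos.le
            linarith
          linarith
        calc (q : ℝ) * (|(As : ℝ)| * (len n + 2 * (e * τ / 64 ^ n)))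
            = ((q : ℝ) * |(As : ℝ)|) * (len n + 2 * (e * τ / 64 ^ n)) := by ring
          _ ≤ (16 * 64 ^ (n + 1)) * ((1 / 2 ^ 11 + 2 * e) / 64 ^ n) :=
              mul_le_mul g1 g3 g2 (by positivity)
          _ = 16 * 64 * (1 / 2 ^ 11 + 2 * e) := by
              rw [pow_succ]; field_simp
      have f3 : (q : ℝ) * (|(Bs : ℝ)| * (y / q + ys / qs)) ≤ 17 * e := by
        have g1 : (q : ℝ) * (|(Bs : ℝ)| * (y / q + ys / qs)) =
            |(Bs : ℝ)| * y + |(Bs : ℝ)| * ys * (q / qs) := by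
          field_simp
        rw [g1]
        have g2 : (q : ℝ) / qs ≤ 16 := by
          rw [div_le_iff₀ hqs0]; exact hq16.le
        have g3 : |(Bs : ℝ)| * y ≤ |(Bs : ℝ)| * ys := mul_le_mul_of_nonneg_left hyle hBs0
        have g4 : 0 ≤ |(Bs : ℝ)| * ys := by
          have : 0 ≤ ys := distInt_nonneg _
          positivity
        have g5 : |(Bs : ℝ)| * ys * (q / qs) ≤ |(Bs : ℝ)| * ys * 16 :=
          mul_le_mul_of_nonneg_left g2 g4
        linarith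
      have f4 := mul_le_mul_of_nonneg_left f1 hq0.le
      rw [mul_add] at f4
      have f5 : 16 * 64 * (1 / 2 ^ 11 + 2 * e) + 17 * e < 1 := by
        norm_num at he1 ⊢
        linarith
      linarith
    have : |As * p + Bs * round ((q : ℝ) * ζ) - Cs * q| < 1 := by exact_mod_cast hNlt
    exact Int.abs_lt_one_iff.1 this
  have hintR : (As : ℝ) * p + Bs * (round ((q : ℝ) * ζ) : ℝ) - Cs * q = 0 := by
    exact_mod_cast hint
  -- the point is close to the crossing of its line with the fibre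
  have hclose : |(p : ℝ) / q - (-(Bs * ζ - Cs) / As)| * ((q : ℝ) * |(As : ℝ)|) ≤ e * τ := by
    have e6 : |(p : ℝ) / q - (-(Bs * ζ - Cs) / As)| * ((q : ℝ) * |(As : ℝ)|) =
        |((p : ℝ) / q - (-(Bs * ζ - Cs) / As)) * (q * As)| := by
      rw [abs_mul, abs_mul, abs_of_pos hq0]
    rw [e6]
    have e7 : ((p : ℝ) / q - (-(Bs * ζ - Cs) / As)) * (q * As) =
        Bs * ((q : ℝ) * ζ - round ((q : ℝ) * ζ)) := by
      have e9 : ((p : ℝ) / q - (-(Bs * ζ - Cs) / As)) * (q * As) =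
          As * p + (Bs * ζ - Cs) * q := by
        field_simp
        ring
      rw [e9]
      linear_combination hintR
    rw [e7, abs_mul]
    have : |(q : ℝ) * ζ - round ((q : ℝ) * ζ)| = y := rfl
    rw [this]
    exact (mul_le_mul_of_nonneg_left hyle hBs0).trans hBsy
  have hqAs : (64 : ℝ) ^ n / 16 ≤ (q : ℝ) * |(As : ℝ)| := by
    have : (qs : ℝ) * |(As : ℝ)| ≤ 16 * q * |(As : ℝ)| :=
      mul_le_mul_of_nonneg_right hqs16.le hAspos.le
    linarith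
  have hclose2 : |(p : ℝ) / q - (-(Bs * ζ - Cs) / As)| ≤ 16 * (e * τ) / 64 ^ n := by
    rw [le_div_iff₀ h64pos]
    have := mul_le_mul_of_nonneg_left hqAs (abs_nonneg ((p : ℝ) / q - (-(Bs * ζ - Cs) / As)))
    linarith
  have hfin : |ξ - (-(Bs * ζ - Cs) / As)| < 17 * (e * τ) / 64 ^ n := by
    have d1 := hpt2 ξ q p hh
    have d2 : ξ - (-(Bs * ζ - Cs) / As) =
      (ξ - (p : ℝ) / q) + ((p : ℝ) / q - (-(Bs * ζ - Cs) / As)) := by ring
    rw [d2]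
    have d3 := abs_add_le (ξ - (p : ℝ) / q) ((p : ℝ) / q - (-(Bs * ζ - Cs) / As))
    have d4 : 17 * (e * τ) / 64 ^ n = e * τ / 64 ^ n + 16 * (e * τ) / 64 ^ n := by ring
    rw [d4]
    linarith
  refine hfin.trans_le ?_
  unfold rad
  apply div_le_div_of_nonneg_right _ h64pos.le
  have e8 : (4 : ℝ) ^ (m + 1 + 11) = 4 ^ m * 4 ^ 12 := by
    rw [← pow_add]
  have e9 : 1 / ((4 : ℝ) ^ m * 4 ^ 12) = (1 / 4 ^ 12) * τ := by rw [hτ]; ring
  rw [e8, e9]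
  have e10 : 17 * e ≤ 1 / 4 ^ 12 := by
    norm_num at he1 ⊢
    linarith
  calc 17 * (e * τ) = (17 * e) * τ := by ring
    _ ≤ (1 / 4 ^ 12) * τ := mul_le_mul_of_nonneg_right e10 hτ0.le

/-- Rational numbers of comparable denominators near a short interval coincide. -/
theorem cluster_rat (n : ℕ) (x : ℝ) :
    ∃ x0 : ℝ, ∀ (ξ : ℝ) (d : ℕ) (p : ℤ), x ≤ ξ → ξ ≤ x + len n → 1 ≤ d →
      64 ^ n ≤ d ^ 2 → d ^ 2 < 64 ^ (n + 1) →
      |ξ - p / d| * d ^ 2 < 1 / 2 ^ 22 →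
      |ξ - x0| < rad n 0 := by
  set S : ℝ → ℕ → ℤ → Prop := fun ξ d p => x ≤ ξ ∧ ξ ≤ x + len n ∧ 1 ≤ d ∧
      64 ^ n ≤ d ^ 2 ∧ d ^ 2 < 64 ^ (n + 1) ∧ |ξ - p / d| * d ^ 2 < 1 / 2 ^ 22 with hS
  suffices hmain : ∃ x0 : ℝ, ∀ ξ d p, S ξ d p → |ξ - x0| < rad n 0 by
    obtain ⟨x0, hx0⟩ := hmain
    exact ⟨x0, fun ξ q p h1 h2 h3 h4 h5 h6 => hx0 ξ q p ⟨h1, h2, h3, h4, h5, h6⟩⟩
  by_cases hne : ∃ ξ d p, S ξ d p
  swap
  · push Not at hne
    exact ⟨0, fun ξ q p h => absurd h (hne ξ q p)⟩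
  obtain ⟨ξs, ds, ps, hs⟩ := hne
  have h64pos : (0 : ℝ) < 64 ^ n := by positivity
  have hpt : ∀ ξ d p, S ξ d p → |ξ - p / d| < 1 / 2 ^ 22 / 64 ^ n := by
    intro ξ d p ⟨h1, h2, h3, h4, h5, h6⟩
    rw [lt_div_iff₀ h64pos]
    have g : (64 : ℝ) ^ n ≤ (d : ℝ) ^ 2 := by exact_mod_cast h4
    have := mul_le_mul_of_nonneg_left g (abs_nonneg (ξ - (p : ℝ) / d))
    linarith
  refine ⟨ps / ds, fun ξ d p hh => ?_⟩
  have hrad : rad n 0 = 1 / 2 ^ 22 / 64 ^ n := by unfold rad; norm_num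
  rw [hrad]
  suffices heq : (p : ℝ) / d = ps / ds by
    rw [← heq]; exact hpt ξ d p hh
  by_contra hcon
  have d1 := hpt ξ d p hh
  have d2 := hpt ξs ds ps hs
  obtain ⟨h1, h2, h3, h4, h5, h6⟩ := hh
  obtain ⟨s1, s2, s3, s4, s5, s6⟩ := hs
  have hd0 : (0 : ℝ) < d := by exact_mod_cast h3
  have hds0 : (0 : ℝ) < ds := by exact_mod_cast s3
  have d3 : |ξ - ξs| ≤ len n := by
    rw [abs_le]; constructor <;> linarith
  have hdist : |(p : ℝ) / d - ps / ds| ≤ len n + 2 * (1 / 2 ^ 22 / 64 ^ n) := by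
    have d4 : (p : ℝ) / d - ps / ds = -(ξ - p / d) + (ξ - ξs) + (ξs - ps / ds) := by ring
    rw [d4]
    have d5 := abs_add_three (-(ξ - (p : ℝ) / d)) (ξ - ξs) (ξs - (ps : ℝ) / ds)
    rw [abs_neg] at d5
    linarith
  have hint : (1 : ℝ) ≤ |(p : ℝ) / d - ps / ds| * (d * ds) := by
    have e1 : |(p : ℝ) / d - ps / ds| * (d * ds) = |((p * ds - ps * d : ℤ) : ℝ)| := by
      rw [← abs_of_pos (show (0 : ℝ) < d * ds by positivity), ← abs_mul]
      congr 1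
      push_cast
      field_simp
    rw [e1]
    have : (p * ds - ps * d : ℤ) ≠ 0 := by
      intro h0
      apply hcon
      rw [div_eq_div_iff hd0.ne' hds0.ne']
      have : ((p * ds - ps * d : ℤ) : ℝ) = 0 := by rw [h0]; simp
      push_cast at this
      linarith
    have := Int.one_le_abs this
    exact_mod_cast this
  have hprod : (d : ℝ) * ds < 64 ^ (n + 1) := by
    have g1 : (d : ℝ) ^ 2 < 64 ^ (n + 1) := by exact_mod_cast h5
    have g2 : (ds : ℝ) ^ 2 < 64 ^ (n + 1) := by exact_mod_cast s5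
    nlinarith [sq_nonneg ((d : ℝ) - ds)]
  have hlen : len n = 1 / 2 ^ 11 / 64 ^ n := rfl
  have hfin : |(p : ℝ) / d - ps / ds| * (d * ds) ≤
      (len n + 2 * (1 / 2 ^ 22 / 64 ^ n)) * 64 ^ (n + 1) :=
    mul_le_mul hdist hprod.le (by positivity) (by have := len_pos n; positivity)
  have e2 : (len n + 2 * (1 / 2 ^ 22 / 64 ^ n)) * 64 ^ (n + 1) =
      (1 / 2 ^ 11 + 2 / 2 ^ 22) * 64 := by
    rw [hlen, pow_succ (64 : ℝ) n]; field_simp
  rw [e2] at hfin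
  norm_num at hfin hint
  linarith

end Pool.Agent.MP_294a04_nt
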