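import Mathlib
import Pool.Agent.Lib.MP_294a04_nt.Defs
import Pool.Agent.Lib.MP_294a04_nt.Game
import Pool.Agent.Lib.MP_294a04_nt.Cluster

set_option autoImplicit false
set_option maxHeartbeats 1000000

namespace Pool.Agent.MP_294a04_nt

open Finset

/-- The active denominator bound at level `n`. -/
def Qf (n : ℕ) : ℕ := 64 ^ (3 * 16 ^ (Nat.log 16 n))

theorem construct (ζ κ e : ℝ) (hκ0 : 0 < κ)
    (hκ : ∀ q : ℕ, 1 ≤ q → κ ≤ (q : ℝ) * distInt ((q : ℝ) * ζ))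
    (he0 : 0 < e) (he1 : e ≤ 1 / 2 ^ 29) (heκ : e < κ) :
    ∃ ξ : ℝ, (∀ d : ℕ, 1 ≤ d → 1 / 2 ^ 22 ≤ (d : ℝ) * distInt ((d : ℝ) * ξ)) ∧
      ∃ k0 : ℕ, ∀ k : ℕ, k0 ≤ k → ∀ q : ℕ, 1 ≤ q → q ≤ 64 ^ (3 * 16 ^ k) →
        e ^ 2 / ((64 ^ (3 * 16 ^ k) : ℕ) : ℝ) ≤
          distInt ((q : ℝ) * ξ) * distInt ((q : ℝ) * ζ) := by
  classical
  have hatt := attach ζ κ e hκ0 hκ he0 heκ
  choose! A B hA0 hA hB hdvd using hatt
  have hclu := cluster ζ e he0 he1 A B hA0 hA hB hdvd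
  choose cA hcA using hclu
  choose cB hcB using cluster_rat
  set χ : ℕ → ℕ → ℝ → ℝ := fun n m x =>
    match m with
    | 0 => cB n x
    | m + 1 => cA (Qf n) n m x with hχ
  obtain ⟨X, ξ, -, hX, hgame⟩ := game χ (fun n => Qf n + 2) 0
  have hbad : ∀ d : ℕ, 1 ≤ d → 1 / 2 ^ 22 ≤ (d : ℝ) * distInt ((d : ℝ) * ξ) := by
    intro d hd
    by_contra hcon
    push Not at hcon
    have hd0 : (0 : ℝ) < d := by exact_mod_cast hd
    set n := Nat.log 64 (d ^ 2) with hn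
    have hd2 : d ^ 2 ≠ 0 := by positivity
    have h1 : 64 ^ n ≤ d ^ 2 := Nat.pow_log_le_self 64 hd2
    have h2 : d ^ 2 < 64 ^ (n + 1) := Nat.lt_pow_succ_log_self (by norm_num) _
    have h3 : |ξ - (round ((d : ℝ) * ξ) : ℤ) / d| * d ^ 2 < 1 / 2 ^ 22 := by
      have e1 : |ξ - (round ((d : ℝ) * ξ) : ℤ) / d| * d ^ 2 = d * distInt ((d : ℝ) * ξ) := by
        unfold distInt
        have e2 : (d : ℝ) * ξ - round ((d : ℝ) * ξ) =
            (ξ - (round ((d : ℝ) * ξ) : ℤ) / d) * d := by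
          rw [sub_mul, div_mul_cancel₀ _ hd0.ne']
          ring
        rw [e2, abs_mul, abs_of_pos hd0]
        ring
      rw [e1]; exact hcon
    have h4 := hcB n (X n) ξ d (round ((d : ℝ) * ξ)) (hX n).1 (hX n).2 hd h1 h2 h3
    have h5 := hgame n 0 (by omega)
    have h6 : χ n 0 (X n) = cB n (X n) := rfl
    rw [h6] at h5
    linarith
  refine ⟨ξ, hbad, ?_⟩
  -- choice of `k0`
  obtain ⟨k0, hk0⟩ : ∃ k0 : ℕ, 1 / (2 * e) < (64 : ℝ) ^ k0 :=
    pow_unbounded_of_one_lt _ (by norm_num)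
  refine ⟨k0, fun k hk q hq1 hqQ => ?_⟩
  set Q : ℕ := 64 ^ (3 * 16 ^ k) with hQ
  by_contra hcon
  push Not at hcon
  have hq0 : (0 : ℝ) < q := by exact_mod_cast hq1
  have hQ0 : (0 : ℝ) < Q := by
    rw [hQ]; positivity
  set y := distInt ((q : ℝ) * ζ) with hy
  have hyq := hκ q hq1
  rw [← hy] at hyq
  have hy0 : 0 < y := by
    by_contra hc
    push Not at hc
    nlinarith
  -- the class of `q`
  set m := Nat.log 16 (Q / q) with hm
  have hQq : Q / q ≠ 0 := by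
    have : 0 < Q / q := Nat.div_pos hqQ (by omega)
    omega
  have hm1 : 16 ^ m * q ≤ Q := by
    have := Nat.pow_log_le_self 16 hQq
    calc 16 ^ m * q ≤ (Q / q) * q := Nat.mul_le_mul_right _ this
      _ ≤ Q := Nat.div_mul_le_self _ _
  have hm2 : Q < 16 ^ (m + 1) * q := by
    have := Nat.lt_pow_succ_log_self (b := 16) (by norm_num) (Q / q)
    rwa [Nat.div_lt_iff_lt_mul (by omega)] at this
  have hm3 : 16 ^ m ≤ Q := le_trans (Nat.le_mul_of_pos_right _ (by omega)) hm1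
  have hm4 : m < Q := lt_of_lt_of_le (Nat.lt_pow_self (by norm_num)) hm3
  -- the level of the point
  set p := round ((q : ℝ) * ξ) with hp
  set h := q * (A m q p).natAbs with hh
  have hAne : A m q p ≠ 0 := hA0 m q hq1 p
  have hAn : 1 ≤ (A m q p).natAbs := Int.natAbs_pos.2 hAne
  have hh1 : q ≤ h := Nat.le_mul_of_pos_right _ hAn
  have hh0 : h ≠ 0 := by omega
  set n := Nat.log 64 h with hn
  have hn1 : 64 ^ n ≤ h := Nat.pow_log_le_self 64 hh0
  have hn2 : h < 64 ^ (n + 1) := Nat.lt_pow_succ_log_self (by norm_num) _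
  have hdist : |(q : ℝ) * ξ - p| * y < e ^ 2 / Q := hcon
  rcases lt_or_ge n (16 ^ k) with hcase | hcase
  · -- old points: use that `ξ` is badly approximable
    have hq64 : q < 64 ^ (16 ^ k) := by
      calc q ≤ h := hh1
        _ < 64 ^ (n + 1) := hn2
        _ ≤ 64 ^ (16 ^ k) := Nat.pow_le_pow_right (by norm_num) hcase
    set N : ℝ := 64 ^ (16 ^ k) with hN
    have hqN : (q : ℝ) < N := by rw [hN]; exact_mod_cast hq64
    have hN64 : (64 : ℝ) ≤ N := by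
      rw [hN]
      calc (64 : ℝ) = 64 ^ 1 := by norm_num
        _ ≤ 64 ^ (16 ^ k) := pow_le_pow_right₀ (by norm_num) (Nat.one_le_pow _ _ (by norm_num))
    have hQN : (Q : ℝ) = N ^ 3 := by
      rw [hQ, hN]; push_cast; rw [← pow_mul]; ring_nf
    have hb := hbad q hq1
    have hb' : distInt ((q : ℝ) * ξ) = |(q : ℝ) * ξ - p| := rfl
    rw [hb'] at hb
    set t := |(q : ℝ) * ξ - p| with ht
    have ht0 : 0 ≤ t := abs_nonneg _
    rw [lt_div_iff₀ hQ0, hQN] at hdist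
    have g1 : 1 / 2 ^ 22 * κ ≤ (q * t) * (q * y) :=
      mul_le_mul hb hyq hκ0.le (by positivity)
    have g2 : (q * t) * (q * y) ≤ t * y * N ^ 2 := by
      have : (q : ℝ) * q ≤ N ^ 2 := by nlinarith
      have := mul_le_mul_of_nonneg_left this (show 0 ≤ t * y by positivity)
      nlinarith
    have g3 : (1 / 2 ^ 22 * κ) * N ≤ t * y * N ^ 3 := by
      have := mul_le_mul_of_nonneg_right (g1.trans g2) (show 0 ≤ N by linarith)
      calc (1 / 2 ^ 22 * κ) * N ≤ t * y * N ^ 2 * N := this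
        _ = t * y * N ^ 3 := by ring
    have g4 : e ^ 2 < (1 / 2 ^ 22 * κ) * N := by
      have a1 : e ^ 2 ≤ (1 / 2 ^ 29) * κ := by nlinarith
      have a2 : (1 / 2 ^ 29) * κ < (1 / 2 ^ 22 * κ) * N := by
        have : (1 : ℝ) / 2 ^ 29 < 1 / 2 ^ 22 * N := by norm_num; linarith
        nlinarith
      linarith
    linarith
  · -- new points
    have hup : n < 16 ^ (k + 1) := by
      by_contra hc
      push Not at hc
      have b1 : 64 ^ (16 ^ (k + 1)) ≤ h := le_trans (Nat.pow_le_pow_right (by norm_num) hc) hn1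
      have b2 : ((64 : ℝ)) ^ (16 ^ (k + 1)) ≤ (q : ℝ) * |(A m q p : ℝ)| := by
        have : ((h : ℕ) : ℝ) = (q : ℝ) * |(A m q p : ℝ)| := by
          rw [hh]; push_cast; rw [Nat.cast_natAbs]; push_cast; rfl
        rw [← this]; exact_mod_cast b1
      have b3 := hA m q hq1 p
      rw [← hy] at b3
      have b4 : y ≤ 1 / 2 := distInt_le_half _
      have b5 : |(A m q p : ℝ)| * e ≤ y * q * 4 ^ m := by
        have h4 : (0 : ℝ) < 4 ^ m := by positivity
        have := mul_le_mul_of_nonneg_right b3 h4.le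
        have e1 : |(A m q p : ℝ)| * (e / 4 ^ m) * 4 ^ m = |(A m q p : ℝ)| * e := by
          field_simp
        linarith
      have b6 : (4 : ℝ) ^ m ≤ Q := by
        have : (4 : ℝ) ^ m ≤ 16 ^ m := pow_le_pow_left₀ (by norm_num) (by norm_num) m
        have h16 : (16 : ℝ) ^ m ≤ Q := by exact_mod_cast hm3
        linarith
      have b7 : (q : ℝ) ≤ Q := by exact_mod_cast hqQ
      have b8 : |(A m q p : ℝ)| * e ≤ 1 / 2 * Q * Q := by
        refine b5.trans ?_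
        have c1 : y * q ≤ 1 / 2 * Q := mul_le_mul b4 b7 hq0.le (by norm_num)
        exact mul_le_mul c1 b6 (by positivity) (by positivity)
      have b9 : (q : ℝ) * |(A m q p : ℝ)| * e ≤ 1 / 2 * Q ^ 3 := by
        have := mul_le_mul b7 b8 (by positivity) hQ0.le
        calc (q : ℝ) * |(A m q p : ℝ)| * e = q * (|(A m q p : ℝ)| * e) := by ring
          _ ≤ Q * (1 / 2 * Q * Q) := this
          _ = 1 / 2 * Q ^ 3 := by ring
      set N : ℝ := 64 ^ (16 ^ k) with hN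
      have hN0 : 0 < N := by rw [hN]; positivity
      have hQN : (Q : ℝ) = N ^ 3 := by
        rw [hQ, hN]; push_cast; rw [← pow_mul]; ring_nf
      have hN16 : ((64 : ℝ)) ^ (16 ^ (k + 1)) = N ^ 16 := by
        rw [hN, ← pow_mul, pow_succ]
      rw [hN16] at b2
      rw [hQN] at b9
      have b10 : N ^ 16 * e ≤ 1 / 2 * (N ^ 3) ^ 3 := by
        have := mul_le_mul_of_nonneg_right b2 he0.le
        linarith
      have hNbig : 1 / (2 * e) < N := by
        refine hk0.trans_le ?_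
        rw [hN]
        apply pow_le_pow_right₀ (by norm_num)
        exact hk.trans (Nat.lt_pow_self (by norm_num)).le
      have hN1 : 1 ≤ N := by
        rw [hN]; exact one_le_pow₀ (by norm_num)
      have b11 : 1 < 2 * e * N := by
        rw [div_lt_iff₀ (by positivity)] at hNbig
        linarith
      have b12 : N ≤ N ^ 7 := le_self_pow₀ hN1 (by norm_num)
      have b13 : 1 < 2 * e * N ^ 7 := by
        have := mul_le_mul_of_nonneg_left b12 (show 0 ≤ 2 * e by positivity)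
        linarith
      have b14 : N ^ 16 * e = N ^ 9 * (e * N ^ 7) := by ring
      have b15 : (N ^ 3) ^ 3 = N ^ 9 := by ring
      rw [b14, b15] at b10
      have hN9 : 0 < N ^ 9 := by positivity
      nlinarith
    have hlog : Nat.log 16 n = k := by
      rw [Nat.log_eq_iff (Or.inr ⟨by norm_num, by
        have : 0 < 16 ^ k := by positivity
        omega⟩)]
      exact ⟨hcase, hup⟩
    have hQfn : Qf n = Q := by rw [Qf, hlog]
    have c1 := hcA Q n m (X n) ξ q p (hX n).1 (hX n).2 hq1 hm1 hm2 hn1 hn2 hdist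
    have c2 := hgame n (m + 1) (by rw [hQfn]; omega)
    have c3 : χ n (m + 1) (X n) = cA (Qf n) n m (X n) := rfl
    rw [c3, hQfn] at c2
    linarith

/-- If `‖q ξ‖ ‖q ζ‖ ≥ c / Q` for all `1 ≤ q ≤ Q` and infinitely many `Q`, then `D(ξ, ζ) > 0`. -/
theorem uniformD_pos (ξ ζ c : ℝ) (hc : 0 < c)
    (h : ∀ a : ℕ, ∃ Q : ℕ, a ≤ Q ∧ 1 ≤ Q ∧ ∀ q : ℕ, 1 ≤ q → q ≤ Q →
      c / (Q : ℝ) ≤ distInt ((q : ℝ) * ξ) * distInt ((q : ℝ) * ζ)) :
    0 < uniformD ξ ζ := by
  have hpos : (0 : EReal) < ((c : ℝ) : EReal) := by exact_mod_cast hc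
  refine hpos.trans_le ?_
  unfold uniformD
  refine Filter.le_limsup_of_frequently_le ?_ (by isBoundedDefault)
  rw [Filter.frequently_atTop]
  intro a
  obtain ⟨Q, haQ, hQ1, hQ⟩ := h a
  refine ⟨Q, haQ, ?_⟩
  have hQ0 : (0 : ℝ) < (Q : ℝ) := by exact_mod_cast hQ1
  have hmin : c / (Q : ℝ) ≤ minProd Q ξ ζ := by
    unfold minProd
    apply le_csInf
    · exact ⟨_, 1, ⟨le_rfl, hQ1⟩, rfl⟩
    · rintro _ ⟨q, ⟨hq1, hq2⟩, rfl⟩
      exact hQ q hq1 hq2
  have hfin : c ≤ (Q : ℝ) * minProd Q ξ ζ := by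
    rw [div_le_iff₀ hQ0] at hmin
    linarith
  exact_mod_cast hfin

/-- Multiplication by `N`: `‖q (N ξ - j)‖ ≤ N ‖q ξ‖`. -/
theorem distInt_scale (q N : ℕ) (hN : 1 ≤ N) (j : ℤ) (ξ0 : ℝ) :
    distInt ((q : ℝ) * ξ0) ≤ N * distInt ((q : ℝ) * ((ξ0 + j) / N)) := by
  have hN0 : (0 : ℝ) < N := by exact_mod_cast hN
  have h1 := distInt_le ((q : ℝ) * ξ0) ((N : ℤ) * round ((q : ℝ) * ((ξ0 + j) / N)) - q * j)
  refine h1.trans (le_of_eq ?_)
  unfold distInt
  rw [← abs_of_pos hN0, ← abs_mul]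
  rw [abs_of_pos hN0]
  congr 1
  push_cast
  generalize (round ((q : ℝ) * ((ξ0 + j) / N)) : ℝ) = r
  field_simp
  ring

theorem main (ζ : ℝ) (hζ : BadlyApproximable ζ) (a b : ℝ) (hab : a < b) :
    ∃ ξ : ℝ, a < ξ ∧ ξ < b ∧ BadlyApproximable ξ ∧ 0 < uniformD ξ ζ := by
  obtain ⟨κ, hκ0, hκ⟩ := hζ
  set e : ℝ := min (1 / 2 ^ 29) (κ / 2) with he
  have he0 : 0 < e := by
    rw [he]; apply lt_min <;> positivity
  obtain ⟨ξ0, hbad, k0, hk⟩ := construct ζ κ e hκ0 hκ he0 (min_le_left _ _)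
    (lt_of_le_of_lt (min_le_right _ _) (by linarith))
  -- a translate of a multiple lies in `(a, b)`
  obtain ⟨N, hN⟩ := exists_nat_gt (1 / (b - a))
  have hba : 0 < b - a := by linarith
  have hN0 : (0 : ℝ) < N := lt_trans (by positivity) hN
  have hN1 : 1 ≤ N := by
    have : 0 < N := by exact_mod_cast hN0
    omega
  have hNba : 1 < (b - a) * N := by
    rw [div_lt_iff₀ hba] at hN
    linarith
  set j : ℤ := ⌊N * a - ξ0⌋ + 1 with hj
  have hj1 : N * a - ξ0 < j := by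
    rw [hj]; push_cast; exact Int.lt_floor_add_one _
  have hj2 : (j : ℝ) ≤ N * a - ξ0 + 1 := by
    rw [hj]; push_cast
    have := Int.floor_le (N * a - ξ0)
    linarith
  refine ⟨(ξ0 + j) / N, ?_, ?_, ?_, ?_⟩
  · rw [lt_div_iff₀ hN0]; linarith
  · rw [div_lt_iff₀ hN0]; linarith
  · refine ⟨1 / 2 ^ 22 / N, by positivity, fun q hq => ?_⟩
    have h1 := hbad q hq
    have h2 := distInt_scale q N hN1 j ξ0
    have hq0 : (0 : ℝ) ≤ q := Nat.cast_nonneg q
    rw [div_le_iff₀ hN0]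
    have h3 := mul_le_mul_of_nonneg_left h2 hq0
    linarith
  · apply uniformD_pos _ _ (e ^ 2 / N) (by positivity)
    intro a'
    set k := max k0 a' with hkdef
    have hka : a' ≤ 64 ^ (3 * 16 ^ k) := by
      have h1 : a' ≤ k := le_max_right _ _
      have h2 : k < 16 ^ k := Nat.lt_pow_self (by norm_num)
      have h3 : 3 * 16 ^ k < 64 ^ (3 * 16 ^ k) := Nat.lt_pow_self (by norm_num)
      omega
    refine ⟨64 ^ (3 * 16 ^ k), hka, Nat.one_le_pow _ _ (by norm_num), fun q hq1 hq2 => ?_⟩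
    have h1 := hk k (le_max_left _ _) q hq1 hq2
    have h2 := distInt_scale q N hN1 j ξ0
    have h3 : 0 ≤ distInt ((q : ℝ) * ζ) := distInt_nonneg _
    have h4 := mul_le_mul_of_nonneg_right h2 h3
    have h5 : e ^ 2 / N / ((64 ^ (3 * 16 ^ k) : ℕ) : ℝ) =
        e ^ 2 / ((64 ^ (3 * 16 ^ k) : ℕ) : ℝ) / N := by
      rw [div_div, div_div, mul_comm]
    rw [h5, div_le_iff₀ hN0]
    linarith

/-- `√2` is badly approximable. -/
theorem badlyApproximable_sqrt_two : BadlyApproximable (Real.sqrt 2) := by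
  refine ⟨1 / 4, by norm_num, fun q hq => ?_⟩
  have hq1 : (1 : ℝ) ≤ q := by exact_mod_cast hq
  have hs : Real.sqrt 2 ^ 2 = 2 := Real.sq_sqrt (by norm_num)
  have hs0 : 0 < Real.sqrt 2 := by positivity
  have hs1 : Real.sqrt 2 < 3 / 2 := by nlinarith
  unfold distInt
  set p := round ((q : ℝ) * Real.sqrt 2) with hp
  have hhalf : |(q : ℝ) * Real.sqrt 2 - p| ≤ 1 / 2 := abs_sub_round _
  rw [abs_le] at hhalf
  have hne : (2 * (q : ℤ) ^ 2 - p ^ 2) ≠ 0 := by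
    intro h0
    have h1 : (p : ℝ) ^ 2 = 2 * (q : ℝ) ^ 2 := by
      have : ((2 * (q : ℤ) ^ 2 - p ^ 2 : ℤ) : ℝ) = 0 := by rw [h0]; simp
      push_cast at this
      linarith
    have h2 : ((p : ℝ) / q) ^ 2 = 2 := by
      rw [div_pow, h1]; field_simp
    apply irrational_sqrt_two
    refine ⟨|(p : ℚ) / q|, ?_⟩
    push_cast
    rw [← Real.sqrt_sq_eq_abs, h2]
  have hone : (1 : ℝ) ≤ |(2 * (q : ℝ) ^ 2 - (p : ℝ) ^ 2)| := by
    have := Int.one_le_abs hne
    have h3 : ((1 : ℤ) : ℝ) ≤ ((|2 * (q : ℤ) ^ 2 - p ^ 2| : ℤ) : ℝ) := by exact_mod_cast this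
    push_cast at h3
    exact h3
  have hfac : 2 * (q : ℝ) ^ 2 - (p : ℝ) ^ 2 =
      ((q : ℝ) * Real.sqrt 2 - p) * ((q : ℝ) * Real.sqrt 2 + p) := by
    have : ((q : ℝ) * Real.sqrt 2 - p) * ((q : ℝ) * Real.sqrt 2 + p) =
      (q : ℝ) ^ 2 * Real.sqrt 2 ^ 2 - (p : ℝ) ^ 2 := by ring
    rw [this, hs]; ring
  rw [hfac, abs_mul] at hone
  have hb : |(q : ℝ) * Real.sqrt 2 + p| ≤ 4 * q := by
    rw [abs_le]
    constructor <;> nlinarith
  have ht : 0 ≤ |(q : ℝ) * Real.sqrt 2 - p| := abs_nonneg _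
  have := mul_le_mul_of_nonneg_left hb ht
  nlinarith

end Pool.Agent.MP_294a04_nt
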